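import Mathlib
set_option autoImplicit false

/-! S09898 (MP_86f7a7_co), common definitions. No determinants anywhere:
`w Γ = π^{k/2}/covol Γ` is defined through the theta function. -/

namespace H460

open scoped BigOperators

section Theta
variable {E : Type*} [NormedAddCommGroup E] [InnerProductSpace ℝ E]

/-- Gaussian mass of the coset `y + Γ` -/
noncomputable def th (Γ : AddSubgroup E) (y : E) (t : ℝ) : ℝ :=
  ∑' x : Γ, Real.exp (-t * ‖(x : E) + y‖ ^ 2)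

/-- finitely many points in every ball -/
def Disc (Γ : AddSubgroup E) : Prop := ∀ R : ℝ, {x : E | x ∈ Γ ∧ ‖x‖ ≤ R}.Finite

/-- rank -/
noncomputable def rk (Γ : AddSubgroup E) : ℕ :=
  Module.finrank ℝ (Submodule.span ℝ (Γ : Set E))

/-- `π^{k/2}/covol`, `k = rk Γ`  (the sequence under the infimum is antitone) -/
noncomputable def w (Γ : AddSubgroup E) : ℝ :=
  ⨅ j : ℕ, th Γ 0 ((1 / 4 : ℝ) ^ j) / 2 ^ (j * rk Γ)

/-- `2Γ` -/
def dbl (Γ : AddSubgroup E) : AddSubgroup E := Γ.map (nsmulAddMonoidHom 2)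

/-- orthogonal projection of `Γ` to the orthogonal complement of `U` (the quotient lattice) -/
noncomputable def quo [FiniteDimensional ℝ E] (Γ : AddSubgroup E) (U : Submodule ℝ E) :
    AddSubgroup E :=
  Γ.map ((Uᗮ).starProjection : E →L[ℝ] E).toLinearMap.toAddMonoidHom

/-- `c Γ` for a real number `c` -/
def scl (c : ℝ) (Γ : AddSubgroup E) : AddSubgroup E :=
  Γ.map (LinearMap.lsmul ℝ E c).toAddMonoidHom

/-- the part of `Γ` in a real subspace -/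
def cut (Γ : AddSubgroup E) (U : Submodule ℝ E) : AddSubgroup E := Γ ⊓ U.toAddSubgroup

/-- `U` is spanned by vectors of `Γ` -/
def Sat (Γ : AddSubgroup E) (U : Submodule ℝ E) : Prop :=
  Submodule.span ℝ (cut Γ U : Set E) = U

/-- subgroup generated by the vectors of `Γ` of norm at most `R` -/
def sbal (Γ : AddSubgroup E) (R : ℝ) : AddSubgroup E :=
  AddSubgroup.closure {x : E | x ∈ Γ ∧ ‖x‖ ≤ R}

/-- subgroups of `M` generated by vectors of norm at most `R` -/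
def Cls (M : AddSubgroup E) (R : ℝ) : Set (AddSubgroup E) :=
  {Γ | ∃ S : Set E, S ⊆ {x : E | x ∈ M ∧ ‖x‖ ≤ R} ∧ Γ = AddSubgroup.closure S}

/-- deficit `ρ rk Γ - log₂ covol` -/
noncomputable def DD (ρ : ℝ) (Γ : AddSubgroup E) : ℝ := ρ * rk Γ + Real.logb 2 (w Γ)

/-- `Γ/2Γ` -/
abbrev QQ (Γ : AddSubgroup E) := Γ ⧸ (dbl Γ).addSubgroupOf Γ

open Classical in
/-- Gaussian mass of the class `c` of `Γ/2Γ`, shifted by `y` -/
noncomputable def fib (Γ : AddSubgroup E) (y : E) (t : ℝ) (c : QQ Γ) : ℝ :=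
  ∑' x : Γ, if (QuotientAddGroup.mk x : QQ Γ) = c then Real.exp (-t * ‖(x : E) + y‖ ^ 2) else 0

/-- `log₂ Θ_Γ(2^{-a})` -/
noncomputable def ph (Γ : AddSubgroup E) (a : ℤ) : ℝ := Real.logb 2 (th Γ 0 ((2 : ℝ) ^ (-a)))

end Theta

/-- The `n^ε` reverse Minkowski theorem. -/
def RMStatement : Prop :=
  ∀ ε κ b : ℝ, 0 < ε → 0 < κ → 0 < b → ∃ n₀ : ℕ, ∀ n : ℕ, n₀ ≤ n →
    ∀ (E : Type) [NormedAddCommGroup E] [InnerProductSpace ℝ E] [FiniteDimensional ℝ E]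
      (M : AddSubgroup E), Disc M → (rk M : ℝ) ≤ κ * n →
      (∀ Γ : AddSubgroup E, Γ ≤ M → w Γ ≤ (n : ℝ) ^ (-(ε * rk Γ))) →
      th M 0 1 ≤ (2 : ℝ) ^ (b * n)

/-- integer vectors as vectors of Euclidean space -/
noncomputable def emb (ι : Type*) [Fintype ι] : (ι → ℤ) →+ EuclideanSpace ℝ ι where
  toFun x := WithLp.toLp 2 (fun i => (x i : ℝ))
  map_zero' := by ext; simp
  map_add' := by intro x y; ext; simp

/-- `x ↦ (x, W x / T)` -/
noncomputable def embW {J : Type*} [Fintype J] {n : ℕ} (W : (J → ℤ) →+ (Fin n → ℤ)) (T : ℝ) :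
    (J → ℤ) →+ EuclideanSpace ℝ (J ⊕ Fin n) where
  toFun x := WithLp.toLp 2 (Sum.elim (fun j => (x j : ℝ)) (fun i => (W x i : ℝ) / T))
  map_zero' := by
    ext i
    rcases i with i | i <;> simp
  map_add' := by
    intro x y
    ext i
    rcases i with i | i
    · simp
    · simp [add_div]

/-- `T = 2^(n²)` -/
noncomputable def TT (n : ℕ) : ℝ := 2 ^ (n ^ 2)

/-- `N₀ = 2^(n²-μ)` -/
noncomputable def NN (n μ : ℕ) : ℝ := 2 ^ (n ^ 2 - μ)

/-- Gram-Schmidt vectors of an integer tuple -/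
noncomputable def gs {n d : ℕ} (b : Fin d → (Fin n → ℤ)) (i : Fin d) : EuclideanSpace ℝ (Fin n) :=
  InnerProductSpace.gramSchmidt ℝ (fun j => emb (Fin n) (b j)) i

/-- A bad tuple (adapted reduced basis of a flag of sublattices with small covolumes). -/
def BadTuple (n μ : ℕ) (b : Fin (n / 2) → (Fin n → ℤ)) : Prop :=
  LinearIndependent ℝ (fun i => emb (Fin n) (b i)) ∧
  (∀ i j : Fin (n / 2), i < j → |inner ℝ (emb (Fin n) (b j)) (gs b i)| ≤ ‖gs b i‖ ^ 2 / 2) ∧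
  (∀ j : Fin (n / 2),
    (1 / 2 : ℝ) * (NN n μ / 16) ^ ((j : ℕ) + 1) ≤ ∏ i ∈ Finset.Iic j, ‖gs b i‖ ∧
    ∏ i ∈ Finset.Iic j, ‖gs b i‖ ≤ TT n ^ ((j : ℕ) + 1) * (n : ℝ) ^ ((n : ℝ) / 32))

/-- points of `L` in the box `[-T,T]^n` -/
def boxSet {n : ℕ} (L : AddSubgroup (Fin n → ℤ)) : Set (Fin n → ℤ) :=
  {x | x ∈ L ∧ ∀ i, |x i| ≤ 2 ^ (n ^ 2)}

/-- a good (typical) lattice -/
structure Good (n μ : ℕ) (L : AddSubgroup (Fin n → ℤ)) : Prop where
  theta : th (L.map (emb (Fin n))) 0 (256 / NN n μ ^ 2) ≤ 2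
  notuple : ∀ b : Fin (n / 2) → (Fin n → ℤ), (∀ i, b i ∈ L) → ¬ BadTuple n μ b
  card : (2 : ℝ) ^ (μ * n) / 2 ≤ ((boxSet L).ncard : ℝ)

/-- conclusion of claim* -/
def ClaimStar (n μ κ : ℕ) (L : AddSubgroup (Fin n → ℤ)) : Prop :=
  ∀ (J : Type) [Fintype J], Fintype.card J ≤ κ * n →
    ∀ W : (J → ℤ) →+ (Fin n → ℤ), (∀ x, W x ∈ L) →
    ∀ X : Finset (J → ℤ), (∀ x ∈ X, ∀ j, |x j| ≤ 2) → Set.InjOn W (X : Set (J → ℤ)) →
    (∃ z : Fin n → ℤ, ∀ x ∈ X, ∀ i, |W x i - z i| ≤ 2 ^ (n ^ 2)) →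
    (X.card : ℝ) ≤ (2 : ℝ) ^ ((12 + (μ : ℝ) / 2) * n)

/-- Shannon entropy (natural logarithm) of a function on a finite type -/
noncomputable def Ent {α : Type*} [Fintype α] (f : α → ℝ) : ℝ := ∑ x, Real.negMulLog (f x)

/-- convolution on a finite group -/
noncomputable def cnv {G : Type*} [AddCommGroup G] [Fintype G] (f g : G → ℝ) (x : G) : ℝ :=
  ∑ y, f y * g (x - y)

/-- Entropic PFR over F_2 (GGMT), as used: `κ = H(μ*μ) - H(μ)`. -/
def PFR2Statement : Prop :=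
  ∃ C : ℝ, 0 < C ∧ ∀ (G : Type) [AddCommGroup G] [Fintype G], (∀ x : G, x + x = 0) →
    ∀ μ : G → ℝ, (∀ x, 0 ≤ μ x) → ∑ x, μ x = 1 →
    ∃ (H : AddSubgroup G) (g : G),
      Real.exp (-(C * (Ent (cnv μ μ) - Ent μ))) ≤ ∑ x, (open Classical in if x - g ∈ H then μ x else 0) ∧
      Real.log (Nat.card H) ≤ Ent μ + C * (Ent (cnv μ μ) - Ent μ)

end H460
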