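import Pool.Agent.H24.Lib.R_seed8.H460R2.LatA
import Pool.Agent.H24.Lib.R_seed8.H460R2.ThA

/-! Module ThB: doubling identity and its consequences -/

set_option autoImplicit false

namespace H460

variable {E : Type*} [NormedAddCommGroup E] [InnerProductSpace ℝ E] [FiniteDimensional ℝ E]


theorem QQ_card {Γ : AddSubgroup E} (h : Disc Γ) : Nat.card (QQ Γ) = 2 ^ rk Γ :=
  relIndex_dbl h

theorem QQ_finite {Γ : AddSubgroup E} (h : Disc Γ) : Finite (QQ Γ) := by
  apply Nat.finite_of_card_ne_zero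
  rw [QQ_card h]
  positivity

theorem ThB_mem_dbl {Γ : AddSubgroup E} {u : E} : u ∈ dbl Γ ↔ ∃ x ∈ Γ, x + x = u := by
  unfold dbl
  rw [AddSubgroup.mem_map]
  simp only [nsmulAddMonoidHom_apply, two_nsmul]

theorem QQ_two {Γ : AddSubgroup E} (c : QQ Γ) : c + c = 0 := by
  induction c using QuotientAddGroup.induction_on with
  | H x =>
    rw [← QuotientAddGroup.mk_add, QuotientAddGroup.eq_zero_iff, AddSubgroup.mem_addSubgroupOf,
      ThB_mem_dbl]
    exact ⟨x, x.2, rfl⟩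

theorem fib_nonneg {Γ : AddSubgroup E} (y : E) (t : ℝ) (c : QQ Γ) : 0 ≤ fib Γ y t c := by
  unfold fib
  apply tsum_nonneg
  intro x
  split_ifs
  · positivity
  · exact le_refl 0

open Classical in
theorem ThB_summable {Γ : AddSubgroup E} (h : Disc Γ) (y : E) {t : ℝ} (ht : 0 < t) (c : QQ Γ) :
    Summable fun x : Γ => if (QuotientAddGroup.mk x : QQ Γ) = c then
      Real.exp (-t * ‖(x : E) + y‖ ^ 2) else 0 := by
  refine Summable.of_nonneg_of_le ?_ ?_ (th_summable h y ht)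
  · intro x
    split_ifs
    · positivity
    · exact le_refl 0
  · intro x
    split_ifs
    · exact le_refl _
    · positivity

theorem sum_fib {Γ : AddSubgroup E} (h : Disc Γ) [Fintype (QQ Γ)] (y : E) {t : ℝ} (ht : 0 < t) :
    ∑ c, fib Γ y t c = th Γ y t := by
  classical
  unfold fib th
  rw [← Summable.tsum_finsetSum (fun c _ => ThB_summable h y ht c)]
  apply tsum_congr
  intro x
  rw [Finset.sum_ite_eq]
  simp

theorem ThB_mk_eq {Γ : AddSubgroup E} (x x' : Γ) :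
    (QuotientAddGroup.mk x' : QQ Γ) = QuotientAddGroup.mk x ↔ ∃ g ∈ Γ, (x' : E) = x + (g + g) := by
  rw [eq_comm, QuotientAddGroup.eq, AddSubgroup.mem_addSubgroupOf, ThB_mem_dbl]
  simp only [AddSubgroup.coe_add, AddSubgroup.coe_neg]
  constructor
  · rintro ⟨g, hg, e⟩
    refine ⟨g, hg, ?_⟩
    rw [e]; abel
  · rintro ⟨g, hg, e⟩
    refine ⟨g, hg, ?_⟩
    rw [e]; abel

/-- the class of `x` has the mass of the coset `x + 2Γ` -/
theorem fib_mk {Γ : AddSubgroup E} (h : Disc Γ) (y : E) {t : ℝ} (ht : 0 < t) (x : Γ) :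
    fib Γ y t (QuotientAddGroup.mk x) = th (dbl Γ) ((x : E) + y) t := by
  classical
  unfold fib th
  have hinj : Function.Injective (fun u : dbl Γ => x + (⟨u.1, dbl_le Γ u.2⟩ : Γ)) := by
    intro u v huv
    have := congrArg (fun z : Γ => (z : E)) huv
    simp only [AddSubgroup.coe_add, add_right_inj] at this
    exact Subtype.ext this
  rw [← hinj.tsum_eq]
  · apply tsum_congr
    intro u
    rw [if_pos]
    · congr 3
      simp only [AddSubgroup.coe_add]
      congr 1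
      abel
    · rw [ThB_mk_eq]
      obtain ⟨g, hg, e⟩ := ThB_mem_dbl.mp u.2
      exact ⟨g, hg, by simp [e]⟩
  · intro x' hx'
    rw [Function.mem_support] at hx'
    have hx'' : (QuotientAddGroup.mk x' : QQ Γ) = QuotientAddGroup.mk x := by
      by_contra hne
      exact hx' (if_neg hne)
    rw [ThB_mk_eq] at hx''
    obtain ⟨g, hg, e⟩ := hx''
    refine ⟨⟨g + g, ThB_mem_dbl.mpr ⟨g, hg, rfl⟩⟩, ?_⟩
    apply Subtype.ext
    simp [e]

/-- the change of variables `(x, x') ↦ (x + x', x - x')` -/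
theorem ThB_pair {Γ : AddSubgroup E} (F : Γ × Γ → ℝ) :
    ∑' q : Γ × Γ, F (q.1 + q.2, q.1 - q.2) =
      ∑' q : Γ × Γ, (open Classical in if (QuotientAddGroup.mk q.1 : QQ Γ) = QuotientAddGroup.mk q.2
        then F q else 0) := by
  classical
  have hinj : Function.Injective (fun q : Γ × Γ => ((q.1 + q.2, q.1 - q.2) : Γ × Γ)) := by
    rintro ⟨a, b⟩ ⟨a', b'⟩ hq
    simp only [Prod.mk.injEq] at hq
    obtain ⟨h1, h2⟩ := hq
    have h1' := congrArg (fun z : Γ => (z : E)) h1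
    have h2' := congrArg (fun z : Γ => (z : E)) h2
    simp only [AddSubgroup.coe_add, AddSubgroup.coe_sub] at h1' h2'
    have ha : (2 : ℝ) • (a : E) = (2 : ℝ) • (a' : E) := by
      rw [two_smul, two_smul]
      have e1 : (a : E) + a = (a + b) + (a - b) := by abel
      have e2 : (a' : E) + a' = (a' + b') + (a' - b') := by abel
      rw [e1, e2, h1', h2']
    have ha' : (a : E) = a' := smul_right_injective E (two_ne_zero) ha
    have hb' : (b : E) = b' := by
      rw [ha'] at h1'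
      exact add_left_cancel h1'
    exact Prod.ext (Subtype.ext ha') (Subtype.ext hb')
  have hsupp : Function.support (fun q : Γ × Γ =>
      if (QuotientAddGroup.mk q.1 : QQ Γ) = QuotientAddGroup.mk q.2 then F q else 0) ⊆
      Set.range (fun q : Γ × Γ => ((q.1 + q.2, q.1 - q.2) : Γ × Γ)) := by
    intro q hq
    rw [Function.mem_support] at hq
    have hq' : (QuotientAddGroup.mk q.1 : QQ Γ) = QuotientAddGroup.mk q.2 := by
      by_contra hne
      exact hq (if_neg hne)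
    rw [ThB_mk_eq] at hq'
    obtain ⟨g, hg, e⟩ := hq'
    refine ⟨(q.2 + ⟨g, hg⟩, ⟨g, hg⟩), ?_⟩
    apply Prod.ext
    · apply Subtype.ext
      simp only [AddSubgroup.coe_add]
      rw [e]; abel
    · apply Subtype.ext
      simp
  have key := hinj.tsum_eq hsupp
  rw [← key]
  apply tsum_congr
  intro q
  rw [if_pos]
  rw [ThB_mk_eq]
  refine ⟨q.2, q.2.2, ?_⟩
  simp only [AddSubgroup.coe_add, AddSubgroup.coe_sub]
  abel

theorem ThB_par (x x' y z : E) (t : ℝ) :
    Real.exp (-t * ‖x + y‖ ^ 2) * Real.exp (-t * ‖x' + z‖ ^ 2) =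
      Real.exp (-(t / 2) * ‖(x + x') + (y + z)‖ ^ 2) *
        Real.exp (-(t / 2) * ‖(x - x') + (y - z)‖ ^ 2) := by
  rw [← Real.exp_add, ← Real.exp_add]
  congr 1
  have e1 : (x + x') + (y + z) = (x + y) + (x' + z) := by abel
  have e2 : (x - x') + (y - z) = (x + y) - (x' + z) := by abel
  rw [e1, e2]
  have := parallelogram_law_with_norm ℝ (x + y) (x' + z)
  linear_combination (t / 2) * this

theorem ThB_mul_tsum {ι κ : Type*} {f : ι → ℝ} {g : κ → ℝ} (hf : Summable f) (hg : Summable g)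
    (hf0 : ∀ i, 0 ≤ f i) (hg0 : ∀ i, 0 ≤ g i) :
    (∑' i, f i) * (∑' j, g j) = ∑' q : ι × κ, f q.1 * g q.2 := by
  exact hf.tsum_mul_tsum hg (hf.mul_of_nonneg hg hf0 hg0)

theorem ThB_ite_nonneg {p : Prop} [Decidable p] {a : ℝ} (ha : 0 ≤ a) : 0 ≤ if p then a else 0 := by
  split_ifs
  · exact ha
  · exact le_refl 0

open Classical in
theorem ThB_fib_mul_fib {Γ : AddSubgroup E} (h : Disc Γ) (y z : E) {s t : ℝ} (hs : 0 < s)
    (ht : 0 < t) (c d : QQ Γ) :
    fib Γ y s c * fib Γ z t d = ∑' q : Γ × Γ,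
      (if (QuotientAddGroup.mk q.1 : QQ Γ) = c then Real.exp (-s * ‖(q.1 : E) + y‖ ^ 2) else 0) *
      (if (QuotientAddGroup.mk q.2 : QQ Γ) = d then Real.exp (-t * ‖(q.2 : E) + z‖ ^ 2) else 0) := by
  unfold fib
  exact ThB_mul_tsum (ThB_summable h y hs c) (ThB_summable h z ht d)
    (fun _ => ThB_ite_nonneg (Real.exp_pos _).le) (fun _ => ThB_ite_nonneg (Real.exp_pos _).le)

open Classical in
theorem ThB_summable_prod {Γ : AddSubgroup E} (h : Disc Γ) (y z : E) {s t : ℝ} (hs : 0 < s)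
    (ht : 0 < t) (c d : QQ Γ) :
    Summable fun q : Γ × Γ =>
      (if (QuotientAddGroup.mk q.1 : QQ Γ) = c then Real.exp (-s * ‖(q.1 : E) + y‖ ^ 2) else 0) *
      (if (QuotientAddGroup.mk q.2 : QQ Γ) = d then Real.exp (-t * ‖(q.2 : E) + z‖ ^ 2) else 0) := by
  have h1 := ThB_summable h y hs c
  have h2 := ThB_summable h z ht d
  have h3 := h1.mul_of_nonneg h2 (fun _ => ThB_ite_nonneg (Real.exp_pos _).le)
    (fun _ => ThB_ite_nonneg (Real.exp_pos _).le)
  exact h3

/-- `(x, x') ↦ (x + x', x - x')` -/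
theorem fib_mul {Γ : AddSubgroup E} (h : Disc Γ) [Fintype (QQ Γ)] (y z : E) {t : ℝ} (ht : 0 < t) :
    th Γ y t * th Γ z t = ∑ c, fib Γ (y + z) (t / 2) c * fib Γ (y - z) (t / 2) c := by
  classical
  have ht2 : 0 < t / 2 := by positivity
  simp_rw [ThB_fib_mul_fib h (y + z) (y - z) ht2 ht2]
  rw [← Summable.tsum_finsetSum (fun c _ => ThB_summable_prod h (y + z) (y - z) ht2 ht2 c c)]
  unfold th
  rw [ThB_mul_tsum (th_summable h y ht) (th_summable h z ht) (fun _ => (Real.exp_pos _).le)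
    (fun _ => (Real.exp_pos _).le)]
  have := ThB_pair (Γ := Γ) (fun q => Real.exp (-(t / 2) * ‖(q.1 : E) + (y + z)‖ ^ 2) *
    Real.exp (-(t / 2) * ‖(q.2 : E) + (y - z)‖ ^ 2))
  calc ∑' q : Γ × Γ, Real.exp (-t * ‖(q.1 : E) + y‖ ^ 2) * Real.exp (-t * ‖(q.2 : E) + z‖ ^ 2)
      = ∑' q : Γ × Γ, Real.exp (-(t / 2) * ‖((q.1 + q.2 : Γ) : E) + (y + z)‖ ^ 2) *
          Real.exp (-(t / 2) * ‖((q.1 - q.2 : Γ) : E) + (y - z)‖ ^ 2) := by
        apply tsum_congr
        intro q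
        rw [ThB_par]
        simp only [AddSubgroup.coe_add, AddSubgroup.coe_sub]
    _ = _ := this
    _ = _ := by
        apply tsum_congr
        intro q
        by_cases hq : (QuotientAddGroup.mk q.1 : QQ Γ) = QuotientAddGroup.mk q.2
        · rw [if_pos hq]
          rw [Finset.sum_eq_single (QuotientAddGroup.mk q.1 : QQ Γ)]
          · rw [if_pos rfl, if_pos hq.symm]
          · intro b _ hb
            rw [if_neg (Ne.symm hb), zero_mul]
          · intro hn
            exact absurd (Finset.mem_univ _) hn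
        · rw [if_neg hq]
          symm
          apply Finset.sum_eq_zero
          intro c _
          by_cases h1 : (QuotientAddGroup.mk q.1 : QQ Γ) = c
          · rw [if_neg (c := (QuotientAddGroup.mk q.2 : QQ Γ) = c), mul_zero]
            intro h2
            exact hq (h1.trans h2.symm)
          · rw [if_neg h1, zero_mul]

theorem fib_conv {Γ : AddSubgroup E} (h : Disc Γ) [Fintype (QQ Γ)] {t : ℝ} (ht : 0 < t)
    (c : QQ Γ) :
    ∑ c', fib Γ 0 t c' * fib Γ 0 t (c - c') = fib Γ 0 (t / 2) c ^ 2 := by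
  classical
  have ht2 : 0 < t / 2 := by positivity
  rw [sq, ThB_fib_mul_fib h 0 0 ht2 ht2]
  simp_rw [ThB_fib_mul_fib h 0 0 ht ht]
  rw [← Summable.tsum_finsetSum (fun c' _ => ThB_summable_prod h 0 0 ht ht c' (c - c'))]
  have := ThB_pair (Γ := Γ) (fun q =>
    if (QuotientAddGroup.mk q.1 : QQ Γ) = c then Real.exp (-(t / 2) * ‖(q.1 : E) + 0‖ ^ 2) *
      Real.exp (-(t / 2) * ‖(q.2 : E) + 0‖ ^ 2) else 0)
  calc ∑' q : Γ × Γ, ∑ c', (if (QuotientAddGroup.mk q.1 : QQ Γ) = c' then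
          Real.exp (-t * ‖(q.1 : E) + 0‖ ^ 2) else 0) *
        (if (QuotientAddGroup.mk q.2 : QQ Γ) = c - c' then
          Real.exp (-t * ‖(q.2 : E) + 0‖ ^ 2) else 0)
      = ∑' q : Γ × Γ, if (QuotientAddGroup.mk (q.1 + q.2) : QQ Γ) = c then
          Real.exp (-(t / 2) * ‖((q.1 + q.2 : Γ) : E) + 0‖ ^ 2) *
          Real.exp (-(t / 2) * ‖((q.1 - q.2 : Γ) : E) + 0‖ ^ 2) else 0 := by
        apply tsum_congr
        intro q
        rw [Finset.sum_eq_single (QuotientAddGroup.mk q.1 : QQ Γ)]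
        · rw [if_pos rfl]
          have hiff : (QuotientAddGroup.mk q.2 : QQ Γ) = c - QuotientAddGroup.mk q.1 ↔
              (QuotientAddGroup.mk (q.1 + q.2) : QQ Γ) = c := by
            rw [QuotientAddGroup.mk_add, eq_sub_iff_add_eq, add_comm]
          simp only [hiff]
          by_cases hc : (QuotientAddGroup.mk (q.1 + q.2) : QQ Γ) = c
          · rw [if_pos hc, if_pos hc, ThB_par]
            simp only [AddSubgroup.coe_add, AddSubgroup.coe_sub, add_zero, sub_zero]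
          · rw [if_neg hc, if_neg hc, mul_zero]
        · intro b _ hb
          rw [if_neg (Ne.symm hb), zero_mul]
        · intro hn
          exact absurd (Finset.mem_univ _) hn
    _ = _ := this
    _ = _ := by
        apply tsum_congr
        intro q
        by_cases hq : (QuotientAddGroup.mk q.1 : QQ Γ) = QuotientAddGroup.mk q.2
        · rw [if_pos hq]
          by_cases hc : (QuotientAddGroup.mk q.1 : QQ Γ) = c
          · rw [if_pos hc, if_pos hc, if_pos (hq.symm.trans hc)]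
          · rw [if_neg hc, if_neg hc, zero_mul]
        · rw [if_neg hq]
          by_cases h1 : (QuotientAddGroup.mk q.1 : QQ Γ) = c
          · rw [if_neg (c := (QuotientAddGroup.mk q.2 : QQ Γ) = c), mul_zero]
            intro h2
            exact hq (h1.trans h2.symm)
          · rw [if_neg h1, zero_mul]

theorem sum_fib_sq {Γ : AddSubgroup E} (h : Disc Γ) [Fintype (QQ Γ)] {t : ℝ} (ht : 0 < t) :
    ∑ c, fib Γ 0 t c ^ 2 = th Γ 0 (2 * t) ^ 2 := by
  have h2t : 0 < 2 * t := by positivity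
  have := fib_mul h (0 : E) 0 h2t
  have e : 2 * t / 2 = t := by ring
  rw [add_zero, sub_zero, e] at this
  rw [sq, this]
  apply Finset.sum_congr rfl
  intro c _
  rw [sq]

theorem ThB_pow_four {Γ : AddSubgroup E} (h : Disc Γ) (y : E) {t : ℝ} (ht : 0 < t) :
    th Γ y t ^ 4 ≤ th Γ ((2 : ℝ) • y) t * th Γ 0 t ^ 3 := by
  classical
  have hfin := QQ_finite h
  have hft : Fintype (QQ Γ) := Fintype.ofFinite _
  have h1 := fib_mul h y y ht
  have h2 := fib_mul h ((2 : ℝ) • y) 0 ht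
  have h3 := fib_mul h (0 : E) 0 ht
  rw [sub_self, ← two_smul ℝ y] at h1
  rw [add_zero, sub_zero] at h2 h3
  have hCS := Finset.sum_mul_sq_le_sq_mul_sq Finset.univ
    (fun c => fib Γ ((2 : ℝ) • y) (t / 2) c) (fun c => fib Γ 0 (t / 2) c)
  calc th Γ y t ^ 4 = (th Γ y t * th Γ y t) ^ 2 := by ring
    _ = (∑ c, fib Γ ((2 : ℝ) • y) (t / 2) c * fib Γ 0 (t / 2) c) ^ 2 := by rw [h1]
    _ ≤ (∑ c, fib Γ ((2 : ℝ) • y) (t / 2) c ^ 2) * ∑ c, fib Γ 0 (t / 2) c ^ 2 := hCS
    _ = (th Γ ((2 : ℝ) • y) t * th Γ 0 t) * (th Γ 0 t * th Γ 0 t) := by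
        rw [h2, h3]
        simp only [sq]
    _ = th Γ ((2 : ℝ) • y) t * th Γ 0 t ^ 3 := by ring

theorem ThB_bound {Γ : AddSubgroup E} (h : Disc Γ) (y : E) {t : ℝ} (ht : 0 < t) :
    th Γ y t ≤ th Γ 0 (t / 4) := by
  have hfin := h (2 * ‖y‖)
  obtain ⟨x0, hx0, hmin⟩ := Set.exists_min_image {x : E | x ∈ Γ ∧ ‖x‖ ≤ 2 * ‖y‖}
    (fun x => ‖x + y‖) hfin ⟨0, Γ.zero_mem, by simp⟩
  have hmin' : ∀ x ∈ Γ, ‖x0 + y‖ ≤ ‖x + y‖ := by
    intro x hx
    by_cases hxn : ‖x‖ ≤ 2 * ‖y‖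
    · exact hmin x ⟨hx, hxn⟩
    · push Not at hxn
      have h1 := hmin 0 ⟨Γ.zero_mem, by simp⟩
      simp only [zero_add] at h1
      have h2 : ‖x‖ ≤ ‖x + y‖ + ‖y‖ := by
        have := norm_sub_le (x + y) y
        simpa using this
      linarith
  rw [← th_translate h hx0.1 y t]
  unfold th
  apply Summable.tsum_le_tsum _ (th_summable h _ ht) (th_summable h _ (by positivity))
  intro g
  apply Real.exp_le_exp.mpr
  have h1 : ‖(g : E)‖ ≤ 2 * ‖(g : E) + (x0 + y)‖ := by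
    have h2 : ‖(g : E)‖ ≤ ‖(g : E) + (x0 + y)‖ + ‖x0 + y‖ := by
      have := norm_sub_le ((g : E) + (x0 + y)) (x0 + y)
      simpa using this
    have h3 := hmin' (g + x0) (Γ.add_mem g.2 hx0.1)
    rw [add_assoc] at h3
    linarith
  have h4 : ‖(g : E)‖ ^ 2 ≤ (2 * ‖(g : E) + (x0 + y)‖) ^ 2 :=
    pow_le_pow_left₀ (norm_nonneg _) h1 2
  rw [add_zero]
  nlinarith [h4, ht]

/-- (T1) the Gaussian mass of a coset is at most that of the subgroup.
`th y ^ 4 ≤ th (2y) * th 0 ^ 3` (Cauchy-Schwarz in `fib_mul`), iterate; `th y t ≤ th 0 (t/4)` bounds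
all of them. -/
theorem th_shift_le {Γ : AddSubgroup E} (h : Disc Γ) (y : E) {t : ℝ} (ht : 0 < t) :
    th Γ y t ≤ th Γ 0 t := by
  have h0 : 0 < th Γ 0 t := th_pos h 0 ht
  have key : ∀ j : ℕ, ∀ y : E, (th Γ y t / th Γ 0 t) ^ (4 ^ j) ≤
      th Γ 0 (t / 4) / th Γ 0 t := by
    intro j
    induction j with
    | zero =>
      intro y
      rw [pow_zero, pow_one]
      exact div_le_div_of_nonneg_right (ThB_bound h y ht) h0.le
    | succ j ih =>
      intro y
      refine le_trans ?_ (ih ((2 : ℝ) • y))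
      rw [pow_succ, mul_comm (4 ^ j) 4, pow_mul]
      have hy := (th_pos h y ht).le
      apply pow_le_pow_left₀ (by positivity)
      rw [div_pow, div_le_div_iff₀ (by positivity) h0]
      calc th Γ y t ^ 4 * th Γ 0 t ≤ (th Γ ((2 : ℝ) • y) t * th Γ 0 t ^ 3) * th Γ 0 t :=
            mul_le_mul_of_nonneg_right (ThB_pow_four h y ht) h0.le
        _ = th Γ ((2 : ℝ) • y) t * th Γ 0 t ^ 4 := by ring
  by_contra hlt
  push Not at hlt
  have hr : 1 < th Γ y t / th Γ 0 t := by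
    rw [one_lt_div h0]; exact hlt
  obtain ⟨n, hn⟩ := pow_unbounded_of_one_lt (th Γ 0 (t / 4) / th Γ 0 t) hr
  have h1 := key n y
  have h2 : n ≤ 4 ^ n := (Nat.lt_pow_self (by norm_num)).le
  have h3 : (th Γ y t / th Γ 0 t) ^ n ≤ (th Γ y t / th Γ 0 t) ^ (4 ^ n) :=
    pow_le_pow_right₀ hr.le h2
  linarith

theorem ThB_dbl_eq {Γ : AddSubgroup E} : dbl Γ = scl 2 Γ := by
  ext u
  rw [ThB_mem_dbl]
  unfold scl
  rw [AddSubgroup.mem_map]
  constructor
  · rintro ⟨x, hx, e⟩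
    refine ⟨x, hx, ?_⟩
    simp only [LinearMap.toAddMonoidHom_coe, LinearMap.lsmul_apply]
    rw [two_smul]; exact e
  · rintro ⟨x, hx, e⟩
    refine ⟨x, hx, ?_⟩
    simp only [LinearMap.toAddMonoidHom_coe, LinearMap.lsmul_apply] at e
    rw [two_smul] at e; exact e

/-- (T5) convexity of `log Θ` in `log t` -/
theorem th_sq_le {Γ : AddSubgroup E} (h : Disc Γ) {t : ℝ} (ht : 0 < t) :
    th Γ 0 (2 * t) ^ 2 ≤ th Γ 0 t * th Γ 0 (4 * t) := by
  classical
  have hfin := QQ_finite h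
  have hft : Fintype (QQ Γ) := Fintype.ofFinite _
  rw [← sum_fib_sq h ht, ← sum_fib h 0 ht, Finset.sum_mul]
  apply Finset.sum_le_sum
  intro c _
  rw [sq]
  apply mul_le_mul_of_nonneg_left _ (fib_nonneg _ _ _)
  induction c using QuotientAddGroup.induction_on with
  | H x =>
    rw [fib_mk h 0 ht]
    refine le_trans (th_shift_le (h.mono (dbl_le Γ)) _ ht) ?_
    rw [ThB_dbl_eq, th_scl (by norm_num)]
    have e : t * 2 ^ 2 = 4 * t := by ring
    rw [e]

end H460
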